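import Pool.Agent.Helper51.BP.Basic
import Pool.Agent.Helper51.BM.Code

/-!
# MP_175197_nt, project BP: the codes for the members with a prime factor in `(K, y]`
-/

set_option autoImplicit false

namespace Pool.Agent.Helper51.BP

open Finset
open Pool.Agent.Helper9.PF
open Pool.Agent.Helper51.BM (cd cd_iff cd_le)

open Classical in
/-- the members `> y` with a prime factor in `(K, y]`, up to `X` -/
noncomputable def SC (A : Set ℕ) (K y X : ℕ) : Finset ℕ :=
  (Icc 1 X).filter fun c => c ∈ A ∧ y < c ∧ ¬ rough K y c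

theorem card_SC {A : Set ℕ} {K : ℕ} (hA : Good A K) (y X : ℕ) :
    (SC A K y X).card ≤ K * y := by
  classical
  have h1 : SC A K y X ⊆ ((Icc 1 y).filter fun p => p.Prime ∧ K < p).biUnion fun p =>
      (SC A K y X).filter fun n => p ∣ n := by
    intro n hn
    have hn' := hn
    unfold SC at hn
    rw [mem_filter, mem_Icc] at hn
    obtain ⟨h2, h3, h4, h5⟩ := hn
    unfold rough at h5
    push Not at h5
    obtain ⟨p, hp, hpn, hKp, hpy⟩ := h5
    rw [mem_biUnion]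
    exact ⟨p, mem_filter.2 ⟨mem_Icc.2 ⟨hp.pos, hpy⟩, hp, hKp⟩, mem_filter.2 ⟨hn', hpn⟩⟩
  refine (card_le_card h1).trans (card_biUnion_le.trans ?_)
  have h2 : ∑ p ∈ (Icc 1 y).filter (fun p => p.Prime ∧ K < p),
      ((SC A K y X).filter fun n => p ∣ n).card ≤
      ∑ _p ∈ (Icc 1 y).filter (fun p => p.Prime ∧ K < p), K := by
    refine sum_le_sum fun p hp => ?_
    rw [mem_filter] at hp
    refine hA.mult p hp.2.1 hp.2.2 _ fun n hn => ?_
    rw [mem_filter] at hn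
    unfold SC at hn
    rw [mem_filter] at hn
    exact ⟨hn.1.2.1, hn.2⟩
  refine h2.trans ?_
  rw [sum_const, smul_eq_mul, mul_comm]
  refine Nat.mul_le_mul_left K ((card_filter_le _ _).trans ?_)
  rw [Nat.card_Icc]
  omega

/-- parity of the quotients -/
theorem odd_iff {A : Set ℕ} {K : ℕ} (hA : Good A K) {n d k k' : ℕ} (hn : n ∈ A) (hd : Odd d)
    (hk : n ∣ k) (hk' : n ∣ k') (h : d * k ≡ d * k' [MOD 2 * K.factorial]) :
    Odd (k / n) ↔ Odd (k' / n) := by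
  obtain ⟨s, m, h1, ⟨t, ht⟩, h3⟩ := hA.split n hn
  have hn0 := hA.pos n hn
  obtain ⟨l, rfl⟩ := hk
  obtain ⟨l', rfl⟩ := hk'
  rw [Nat.mul_div_cancel_left _ hn0, Nat.mul_div_cancel_left _ hn0]
  have hs0 : 0 < s := Nat.pos_of_ne_zero fun h0 => by
    rw [h1, h0, zero_mul] at hn0
    exact lt_irrefl _ hn0
  have hm0 : m ≠ 0 := by
    rintro rfl
    rw [mul_zero] at h1
    omega
  have hm : Odd m := by
    rw [← Nat.not_even_iff_odd, even_iff_two_dvd]
    intro h2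
    have := h3 2 Nat.prime_two h2
    have := hA.two
    omega
  have e1 : d * (n * l) = s * (d * m * l) := by rw [h1]; ring
  have e2 : d * (n * l') = s * (d * m * l') := by rw [h1]; ring
  have e3 : 2 * K.factorial = s * (2 * t) := by rw [ht]; ring
  rw [e1, e2, e3] at h
  have h4 := Nat.ModEq.mul_left_cancel' hs0.ne' h
  have h5 : d * m * l ≡ d * m * l' [MOD 2] := h4.of_mul_right t
  have hdm : Odd (d * m) := hd.mul hm
  have h6 : (d * m * l) % 2 = (d * m * l') % 2 := h5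
  rw [Nat.mul_mod, Nat.mul_mod (d * m) l', Nat.odd_iff.1 hdm] at h6
  rw [Nat.odd_iff, Nat.odd_iff]
  omega

theorem gR_eq {A : Set ℕ} {K : ℕ} (hA : Good A K) (ε : ℕ → ℤ) {y V X N N' d i : ℕ} (hd : Odd d)
    (hN : 1 ≤ N) (hN' : 1 ≤ N')
    (hNX : N + V ≤ X) (hNX' : N' + V ≤ X) (hi : i ≤ V) (hdN : d ∣ N + i) (hdN' : d ∣ N' + i)
    (hmod : N ≡ N' [MOD 2 * K.factorial])
    (hc : ∀ c ∈ SC A K y X, cd V (d * c) N = cd V (d * c) N') :
    gR A ε K y ((N + i) / d) = gR A ε K y ((N' + i) / d) := by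
  classical
  have hd0 : 0 < d := hd.pos
  have hpos : ∀ N, 1 ≤ N → d ∣ N + i → (N + i) / d ≠ 0 := by
    intro N h1 h2
    have := Nat.div_pos (Nat.le_of_dvd (by omega) h2) hd0
    omega
  have key : ∀ N N', 1 ≤ N → 1 ≤ N' → N + V ≤ X → d ∣ N + i → d ∣ N' + i →
      (∀ c ∈ SC A K y X, cd V (d * c) N = cd V (d * c) N') → ∀ n, n ∣ (N + i) / d → n ∈ A → y < n →
      ¬ rough K y n → n ∣ (N' + i) / d := by
    intro N N' h1 h1' h2 h3 h4 h5 n h6 h7 h8 h9
    have h10 := hpos N h1 h3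
    have h11 : n ≤ (N + i) / d := Nat.le_of_dvd (Nat.pos_of_ne_zero h10) h6
    have h12 : (N + i) / d ≤ N + i := Nat.div_le_self _ _
    have h13 : n ∈ SC A K y X := by
      unfold SC
      rw [mem_filter, mem_Icc]
      exact ⟨⟨by omega, by omega⟩, h7, h8, h9⟩
    have h14 : d * n ∣ N + i := by
      rw [← Nat.dvd_div_iff_mul_dvd h3]
      exact h6
    have h15 := (cd_iff (h5 n h13) hi).1 h14
    rw [Nat.dvd_div_iff_mul_dvd h4]
    exact h15
  have hmod' : d * ((N + i) / d) ≡ d * ((N' + i) / d) [MOD 2 * K.factorial] := by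
    rw [Nat.mul_div_cancel' hdN, Nat.mul_div_cancel' hdN']
    exact hmod.add_right i
  unfold gR
  congr 1
  ext n
  simp only [mem_filter, Nat.mem_divisors]
  constructor
  · rintro ⟨⟨h1, -⟩, ⟨h2, h3, h3'⟩, h4⟩
    have h5 := key N N' hN hN' hNX hdN hdN' hc n h1 h2 h3 h4
    exact ⟨⟨h5, hpos N' hN' hdN'⟩, ⟨h2, h3, (odd_iff hA h2 hd h1 h5 hmod').1 h3'⟩, h4⟩
  · rintro ⟨⟨h1, -⟩, ⟨h2, h3, h3'⟩, h4⟩
    have h5 := key N' N hN' hN hNX' hdN' hdN (fun c hcc => (hc c hcc).symm) n h1 h2 h3 h4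
    exact ⟨⟨h5, hpos N hN hdN⟩, ⟨h2, h3, (odd_iff hA h2 hd h5 h1 hmod').2 h3'⟩, h4⟩

end Pool.Agent.Helper51.BP
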