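import Pool.Agent.Helper51.BM.Params

/-!
# MP_175197_nt, project BP: the parameters

`G, y, D, W, E, V` belong to `L = T * l`; the noise, `Y`, `Z` and the pool of primes to `l`.
-/

set_option autoImplicit false

namespace Pool.Agent.Helper51.BP

open Filter
open Pool.Agent.Helper9.PF
open Pool.Agent.Helper51.BM (NN RR)

/-- number of design primes per place -/
def uP (T l : ℕ) : ℕ := (2 * NN l + 1) * 2 ^ (T * l)
/-- `B` -/
def bP (T l : ℕ) : ℕ := uP T l + NN l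

private theorem ev5 (k : ℕ) : ∀ᶠ L : ℕ in atTop, k * L ^ 5 ≤ 2 ^ (L - 2) := by
  have h := tendsto_pow_const_div_const_pow_of_one_lt 5 (r := (2 : ℝ)) (by norm_num)
  have h2 : ∀ᶠ n : ℕ in atTop, (n : ℝ) ^ 5 / 2 ^ n < 1 / (4 * ((k : ℝ) + 1)) :=
    h.eventually (gt_mem_nhds (by positivity))
  filter_upwards [h2, eventually_ge_atTop 2] with n hn h2n
  have hp : (0 : ℝ) < 2 ^ n := by positivity
  rw [div_lt_iff₀ hp, one_div, inv_mul_eq_div, lt_div_iff₀ (by positivity)] at hn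
  obtain ⟨m, rfl⟩ := Nat.exists_eq_add_of_le' h2n
  have h3 : m + 2 - 2 = m := by omega
  rw [h3]
  have h4 : (k : ℝ) * (((m + 2 : ℕ) : ℝ)) ^ 5 ≤ 2 ^ m := by
    have h5 : (2 : ℝ) ^ (m + 2) = 4 * 2 ^ m := by ring
    rw [h5] at hn
    have h6 : (0 : ℝ) ≤ (((m + 2 : ℕ) : ℝ)) ^ 5 := by positivity
    nlinarith
  exact_mod_cast h4

private theorem del_le {L : ℕ} (hL : 1 ≤ L) : del L ≤ 2 ^ 33 * L ^ 4 := by
  unfold del eta
  have h1 : 1 ≤ L ^ 2 := Nat.one_le_pow _ _ hL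
  calc 64 * (1 + 8192 * L ^ 2) * (8192 * L ^ 2)
      ≤ 64 * (16384 * L ^ 2) * (8192 * L ^ 2) :=
        Nat.mul_le_mul_right _ (Nat.mul_le_mul_left _ (by omega))
    _ = 2 ^ 33 * L ^ 4 := by ring

private theorem poly_le {T l : ℕ} (hT : 4 ≤ T) (hl : 1 ≤ l) :
    2 * del (T * l) + (T + 4) * l + 10 ≤ 2 ^ 35 * T ^ 4 * l ^ 4 := by
  have h1 : del (T * l) ≤ 2 ^ 33 * (T * l) ^ 4 := del_le (Nat.mul_pos (by omega) hl)
  have h2 : T ≤ T ^ 4 := Nat.le_self_pow (by norm_num) T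
  have h3 : l ≤ l ^ 4 := Nat.le_self_pow (by norm_num) l
  have h4 : T * l ≤ T ^ 4 * l ^ 4 := Nat.mul_le_mul h2 h3
  have h5 : l ≤ T * l := Nat.le_mul_of_pos_left _ (by omega)
  have h6 : (T * l) ^ 4 = T ^ 4 * l ^ 4 := by ring
  rw [h6] at h1
  have h7 : (T + 4) * l = T * l + 4 * l := by ring
  have h8 : 2 ^ 35 * T ^ 4 * l ^ 4 = 2 ^ 34 * (T ^ 4 * l ^ 4) + 2 ^ 34 * (T ^ 4 * l ^ 4) := by ring
  have h9 : 1 ≤ T * l := Nat.mul_pos (by omega) hl
  rw [h7, h8]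
  omega

/-- the master inequalities -/
theorem m1 {T : ℕ} (hT : 4 ≤ T) : ∀ᶠ l : ℕ in atTop,
    2 * del (T * l) + (T + 4) * l + 10 ≤ 2 ^ (l - 2) := by
  filter_upwards [ev5 (2 ^ 35 * T ^ 4), eventually_ge_atTop 1] with l h5 hl
  refine (poly_le hT hl).trans (le_trans ?_ h5)
  exact Nat.mul_le_mul_left _ (Nat.pow_le_pow_right hl (by norm_num))

theorem m2 {T : ℕ} (hT : 4 ≤ T) : ∀ᶠ l : ℕ in atTop,
    2 * del (T * l) + (T + 4) * l + 10 ≤ l ^ 8 := by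
  filter_upwards [eventually_ge_atTop (512 * T), eventually_ge_atTop 1] with l h5 hl
  refine (poly_le hT hl).trans ?_
  have h1 : (512 * T) ^ 4 ≤ l ^ 4 := Nat.pow_le_pow_left h5 4
  calc 2 ^ 35 * T ^ 4 * l ^ 4 ≤ (512 * T) ^ 4 * l ^ 4 := by
        refine Nat.mul_le_mul_right _ ?_
        have : (512 * T) ^ 4 = 2 ^ 36 * T ^ 4 := by ring
        rw [this]
        exact Nat.mul_le_mul_right _ (by norm_num)
    _ ≤ l ^ 4 * l ^ 4 := Nat.mul_le_mul_right _ h1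
    _ = l ^ 8 := by ring

private theorem VV_le {L : ℕ} (hL : 1 ≤ L) : VV L ≤ 2 ^ (2 * del L + 3) := by
  unfold VV EE WW DD
  have h0 : L ≤ del L := by
    unfold del eta
    have h1 : L ≤ L ^ 2 := by nlinarith
    have h2 : 1 ≤ 64 * (1 + 8192 * L ^ 2) := by omega
    calc L ≤ 1 * (8192 * L ^ 2) := by omega
      _ ≤ 64 * (1 + 8192 * L ^ 2) * (8192 * L ^ 2) := Nat.mul_le_mul_right _ h2
  have h1 : 2 ^ L + 2 ≤ 2 ^ (L + 1) := by
    have h2 : 2 ^ 1 ≤ 2 ^ L := Nat.pow_le_pow_right (by norm_num) hL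
    rw [pow_succ]
    omega
  have h3 : 2 ^ (L + 1) ≤ 2 ^ (del L + 1) :=
    Nat.pow_le_pow_right (by norm_num) (by omega)
  calc 2 * (2 ^ del L * (2 ^ L + 2)) + 4 * (2 ^ del L) ^ 2
      ≤ 2 * (2 ^ del L * 2 ^ (del L + 1)) + 4 * (2 ^ del L) ^ 2 := by
        gcongr
        exact h1.trans h3
    _ = 2 ^ (2 * del L + 3) := by ring

private theorem uP_le {T l : ℕ} : uP T l ≤ 2 ^ (T * l + 2 * l + 2) := by
  unfold uP NN
  have h1 : l ≤ 2 ^ l := Nat.lt_two_pow_self.le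
  have h2 : 1 ≤ 2 ^ l := Nat.one_le_two_pow
  have h3 : 2 ^ (T * l + 2 * l + 2) = (4 * (2 ^ l * 2 ^ l)) * 2 ^ (T * l) := by ring
  rw [h3]
  refine Nat.mul_le_mul_right _ ?_
  have h4 : l * 2 ^ l ≤ 2 ^ l * 2 ^ l := Nat.mul_le_mul_right _ h1
  have h5 : 1 ≤ 2 ^ l * 2 ^ l := Nat.mul_pos h2 h2
  omega

private theorem NN_le {l : ℕ} : 2 * NN l + 1 ≤ 2 ^ (2 * l + 2) := by
  unfold NN
  have h1 : l ≤ 2 ^ l := Nat.lt_two_pow_self.le
  have h2 : 1 ≤ 2 ^ l := Nat.one_le_two_pow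
  have h3 : 2 ^ (2 * l + 2) = 4 * (2 ^ l * 2 ^ l) := by ring
  rw [h3]
  have h4 : l * 2 ^ l ≤ 2 ^ l * 2 ^ l := Nat.mul_le_mul_right _ h1
  have h5 : 1 ≤ 2 ^ l * 2 ^ l := Nat.mul_pos h2 h2
  omega

private theorem bP_le {T l : ℕ} : 2 * bP T l + 1 ≤ 2 ^ (T * l + 2 * l + 4) := by
  unfold bP
  have h1 := @uP_le T l
  have h2 := @NN_le l
  have h3 : 2 ^ (2 * l + 2) ≤ 2 ^ (T * l + 2 * l + 2) := Nat.pow_le_pow_right (by norm_num) (by omega)
  have h4 : 2 ^ (T * l + 2 * l + 4) = 4 * 2 ^ (T * l + 2 * l + 2) := by ring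
  rw [h4]
  omega

theorem r4 {T : ℕ} (hT : 4 ≤ T) : ∀ᶠ l : ℕ in atTop,
    4 * ((VV (T * l) : ℝ) + 1) * (1 + Real.log (YY l)) < 2 ^ (2 ^ l + 1) := by
  filter_upwards [m1 hT, eventually_ge_atTop 2] with l hl hl2
  have hL1 : 1 ≤ T * l := Nat.mul_pos (by omega) (by omega)
  have h1 : (VV (T * l) : ℝ) + 1 ≤ 2 ^ (2 * del (T * l) + 4) := by
    have h2 := VV_le hL1
    have h3 : 1 ≤ 2 ^ (2 * del (T * l) + 3) := Nat.one_le_two_pow
    have h4 : VV (T * l) + 1 ≤ 2 ^ (2 * del (T * l) + 4) := by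
      rw [pow_succ 2 (2 * del (T * l) + 3)]
      omega
    exact_mod_cast h4
  have h5 : 1 + Real.log (YY l) ≤ 2 ^ (2 ^ (l - 1) + 1) := by
    unfold YY
    push_cast
    rw [Real.log_pow, pow_succ]
    have h6 : Real.log 2 ≤ 1 := by
      have := Real.log_two_lt_d9
      linarith
    have h7 : (1 : ℝ) ≤ 2 ^ 2 ^ (l - 1) := one_le_pow₀ (by norm_num)
    push_cast
    nlinarith
  have h8 : 2 * del (T * l) + 7 + 2 ^ (l - 1) < 2 ^ l + 1 := by
    have h12 : 2 ^ l = 2 * 2 ^ (l - 1) := by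
      rw [← pow_succ']
      congr 1
      omega
    have h13 : 2 ^ (l - 2) ≤ 2 ^ (l - 1) := Nat.pow_le_pow_right (by norm_num) (by omega)
    omega
  have hnn : 0 ≤ 1 + Real.log (YY l) := by
    have : 0 ≤ Real.log (YY l) := Real.log_natCast_nonneg _
    linarith
  calc 4 * ((VV (T * l) : ℝ) + 1) * (1 + Real.log (YY l))
      ≤ 4 * 2 ^ (2 * del (T * l) + 4) * 2 ^ (2 ^ (l - 1) + 1) := by
        gcongr
    _ = 2 ^ (2 * del (T * l) + 7 + 2 ^ (l - 1)) := by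
        have h15 : (2 : ℝ) ^ (2 + (2 * del (T * l) + 4) + (2 ^ (l - 1) + 1))
            = 2 ^ 2 * 2 ^ (2 * del (T * l) + 4) * 2 ^ (2 ^ (l - 1) + 1) := by
          rw [pow_add, pow_add]
        rw [show 2 * del (T * l) + 7 + 2 ^ (l - 1) =
          2 + (2 * del (T * l) + 4) + (2 ^ (l - 1) + 1) by ring,
          h15, show (2 : ℝ) ^ 2 = 4 by norm_num]
    _ < 2 ^ (2 ^ l + 1) := pow_lt_pow_right₀ (by norm_num) h8

theorem r5 {T : ℕ} (hT : 4 ≤ T) : ∀ᶠ l : ℕ in atTop, ∀ lam : ℝ, 3 / 2 ≤ lam →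
    4 * (bP T l : ℝ) + 2 * (30 * (l : ℝ)) < lam ^ GG (T * l) := by
  filter_upwards [eventually_ge_atTop 1] with l hl lam hlam
  have hL3 : 3 ≤ T * l := by nlinarith
  have h1 : ∀ L : ℕ, 3 ≤ L → (76 : ℝ) * 4 ^ L < 25 ^ L := by
    intro L hL
    induction L, hL using Nat.le_induction with
    | base => norm_num
    | succ L hL ih =>
      rw [pow_succ, pow_succ]
      have h2 : (0 : ℝ) < 4 ^ L := by positivity
      linarith
  have h3 : (25 : ℝ) ^ (T * l) ≤ lam ^ GG (T * l) := by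
    unfold GG
    rw [pow_mul lam]
    refine pow_le_pow_left₀ (by norm_num) ?_ (T * l)
    refine le_trans ?_ (pow_le_pow_left₀ (by norm_num) hlam 8)
    norm_num
  have h4 : 4 * bP T l + 2 * (30 * l) ≤ 76 * 4 ^ (T * l) := by
    have e1 := @uP_le T l
    have e2 := @NN_le l
    have e3 : l ≤ 2 ^ l := Nat.lt_two_pow_self.le
    obtain ⟨x, hx⟩ : ∃ x, x = 2 ^ l := ⟨_, rfl⟩
    have hx1 : 1 ≤ x := by rw [hx]; exact Nat.one_le_two_pow
    obtain ⟨z, hz⟩ : ∃ z, z = 2 ^ (T * l) := ⟨_, rfl⟩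
    have hxz : x * x ≤ z := by
      rw [hx, hz, ← pow_add]
      exact Nat.pow_le_pow_right (by norm_num) (by nlinarith)
    have e4 : uP T l = (2 * (l * x) + 1) * z := by
      unfold uP NN
      rw [hx, hz]
    have e5 : NN l = l * x := by
      unfold NN
      rw [hx]
    have e6 : (4 : ℕ) ^ (T * l) = z * z := by
      rw [hz, ← mul_pow]
      norm_num
    rw [← hx] at e3
    have e7 : l * x ≤ x * x := Nat.mul_le_mul_right _ e3
    have hz1 : 1 ≤ z := by nlinarith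
    unfold bP
    rw [e4, e5, e6]
    have e8 : (2 * (l * x) + 1) * z ≤ (3 * z) * z := Nat.mul_le_mul_right _ (by nlinarith)
    have e9 : l * x ≤ z * z := by nlinarith
    have e10 : l ≤ z * z := by nlinarith
    have e11 : 3 * z * z = 3 * (z * z) := by ring
    omega
  have h5 : 4 * (bP T l : ℝ) + 2 * (30 * (l : ℝ)) ≤ 76 * 4 ^ (T * l) := by exact_mod_cast h4
  exact lt_of_le_of_lt h5 ((h1 _ hL3).trans_le h3)

theorem r7 {T : ℕ} (hT : 4 ≤ T) : ∀ᶠ l : ℕ in atTop,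
    l * (WW (T * l) * uP T l) ≤ 2 ^ (l ^ 8) ∧ VV (T * l) ≤ 2 ^ (l ^ 8) ∧
      yy (T * l) ≤ 2 ^ (l ^ 8) := by
  filter_upwards [m2 hT, eventually_ge_atTop 1] with l hkey hl
  have hL1 : 1 ≤ T * l := Nat.mul_pos (by omega) hl
  have hTl : (T + 4) * l = T * l + 4 * l := by ring
  refine ⟨?_, ?_, ?_⟩
  · calc l * (WW (T * l) * uP T l) ≤ 2 ^ l * (4 * (2 ^ del (T * l)) ^ 2 *
          2 ^ (T * l + 2 * l + 2)) :=
          Nat.mul_le_mul Nat.lt_two_pow_self.le (Nat.mul_le_mul_left _ uP_le)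
      _ = 2 ^ (2 * del (T * l) + T * l + 3 * l + 4) := by ring
      _ ≤ 2 ^ (l ^ 8) := Nat.pow_le_pow_right (by norm_num) (by omega)
  · exact (VV_le hL1).trans (Nat.pow_le_pow_right (by norm_num) (by omega))
  · unfold yy
    have h : eta (T * l) ≤ del (T * l) := by
      unfold del
      nlinarith [Nat.zero_le (eta (T * l))]
    exact Nat.pow_le_pow_right (by norm_num) (by omega)

private theorem QQ_le (G y : ℕ) : QQ G y ≤ 4 ^ y := by
  refine le_trans ?_ (primorial_le_four_pow y)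
  unfold QQ primorial
  refine Finset.prod_le_prod_of_subset_of_one_le' ?_ ?_
  · intro p hp
    rw [Finset.mem_filter, Finset.mem_Ioc] at hp
    rw [Finset.mem_filter, Finset.mem_range]
    exact ⟨by omega, hp.2⟩
  · intro p hp _
    exact (Finset.mem_filter.1 hp).2.one_le

theorem r8 {T : ℕ} (hT : 4 ≤ T) : ∀ᶠ l : ℕ in atTop,
    16 * (T * QQ (GG (T * l)) (yy (T * l)) * ZZ l ^ (2 * (WW (T * l) * uP T l))) ≤ YY l := by
  filter_upwards [m1 hT, eventually_ge_atTop 2] with l hexp hl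
  have hTl : (T + 4) * l = T * l + 4 * l := by ring
  have hpow : 2 * 2 ^ (l - 2) = 2 ^ (l - 1) := by
    rw [← pow_succ']
    congr 1
    omega
  set e1 : ℕ := 2 ^ (l - 2) + (2 * del (T * l) + T * l + 2 * l + 5) with he1
  have he2 : e1 + 2 ≤ 2 ^ (l - 1) := by omega
  have hW : 2 * (WW (T * l) * uP T l) ≤ 2 ^ (2 * del (T * l) + T * l + 2 * l + 5) := by
    have h1 : WW (T * l) * uP T l ≤ 4 * (2 ^ del (T * l)) ^ 2 * 2 ^ (T * l + 2 * l + 2) :=
      Nat.mul_le_mul_left _ uP_le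
    have h2 : 4 * (2 ^ del (T * l)) ^ 2 * 2 ^ (T * l + 2 * l + 2) =
        2 ^ (2 * del (T * l) + T * l + 2 * l + 4) := by ring
    have h3 : 2 ^ (2 * del (T * l) + T * l + 2 * l + 5) =
        2 * 2 ^ (2 * del (T * l) + T * l + 2 * l + 4) := by ring
    omega
  have hZ : ZZ l ^ (2 * (WW (T * l) * uP T l)) ≤ 2 ^ 2 ^ e1 := by
    unfold ZZ
    rw [← pow_mul]
    refine Nat.pow_le_pow_right (by norm_num) ?_
    rw [he1, pow_add]
    exact Nat.mul_le_mul_left _ hW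
  have hQ : QQ (GG (T * l)) (yy (T * l)) ≤ 2 ^ 2 ^ e1 := by
    refine (QQ_le _ _).trans ?_
    have h1 : (4 : ℕ) = 2 ^ 2 := by norm_num
    rw [h1, ← pow_mul]
    refine Nat.pow_le_pow_right (by norm_num) ?_
    unfold yy
    rw [← pow_succ']
    refine Nat.pow_le_pow_right (by norm_num) ?_
    have h2 : eta (T * l) ≤ del (T * l) := by
      unfold del
      nlinarith [Nat.zero_le (eta (T * l))]
    omega
  have h6 : T + 4 ≤ 2 ^ e1 := by
    have h1 : T ≤ T * l := Nat.le_mul_of_pos_right _ (by omega)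
    have h2 : T + 4 ≤ e1 := by omega
    exact h2.trans Nat.lt_two_pow_self.le
  have hT2 : T ≤ 2 ^ T := Nat.lt_two_pow_self.le
  calc 16 * (T * QQ (GG (T * l)) (yy (T * l)) * ZZ l ^ (2 * (WW (T * l) * uP T l)))
      ≤ 16 * (2 ^ T * 2 ^ 2 ^ e1 * 2 ^ 2 ^ e1) :=
        Nat.mul_le_mul_left _ (Nat.mul_le_mul (Nat.mul_le_mul hT2 hQ) hZ)
    _ = 2 ^ ((T + 4) + 2 ^ e1 + 2 ^ e1) := by rw [pow_add, pow_add, pow_add]; ring
    _ ≤ 2 ^ (2 ^ (e1 + 2)) := by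
        refine Nat.pow_le_pow_right (by norm_num) ?_
        have h7 : 2 ^ (e1 + 2) = 4 * 2 ^ e1 := by ring
        rw [h7]
        omega
    _ ≤ YY l := by
        unfold YY
        exact Nat.pow_le_pow_right (by norm_num) (Nat.pow_le_pow_right (by norm_num) he2)

theorem r9 {T : ℕ} (hT : 4 ≤ T) : ∀ᶠ l : ℕ in atTop, VV (T * l) ≤ YY l := by
  filter_upwards [m1 hT, eventually_ge_atTop 2] with l hexp hl
  have hL1 : 1 ≤ T * l := Nat.mul_pos (by omega) (by omega)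
  refine (VV_le hL1).trans ?_
  unfold YY
  refine Nat.pow_le_pow_right (by norm_num) ?_
  have h1 : 2 ^ (l - 2) ≤ 2 ^ (l - 1) := Nat.pow_le_pow_right (by norm_num) (by omega)
  have h2 : 2 ^ (l - 1) ≤ 2 ^ (2 ^ (l - 1)) := Nat.lt_two_pow_self.le
  omega

/-- the small factors -/
theorem small (K₀ L : ℕ) (hL : K₀ + 10 ≤ L) : ∃ N S,
    2 * (K₀ ^ (yy L ^ 2) * (RR L + 1)) + 1 ≤ 2 ^ N ∧ (VV L + 2) ^ (L * yy L) ≤ 2 ^ S ∧
      4 * (2 * N + S) < DD L := by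
  obtain ⟨e, he⟩ : ∃ e, e = eta L := ⟨_, rfl⟩
  have heL2 : 8192 * L ≤ e := by
    rw [he, eta]
    nlinarith
  have heL : L ≤ e := by omega
  have he1 : 10 ≤ e := by omega
  have hdel : del L = 64 * (1 + e) * e := by rw [del, ← he]
  have hdel1 : 64 * e + 64 ≤ del L := by
    rw [hdel]
    nlinarith
  have hdel2 : del L ≤ 128 * (e * e) := by
    rw [hdel]
    nlinarith
  obtain ⟨D', hD'⟩ : ∃ D', D' = 2 ^ (del L - 2) := ⟨_, rfl⟩
  have hDD : DD L = 4 * D' := by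
    rw [DD, hD']
    have h1 : del L = 2 + (del L - 2) := by omega
    conv_lhs => rw [h1, pow_add]
    norm_num
  have hyy : yy L ^ 2 = 2 ^ (2 * e) := by
    rw [yy, ← he, ← pow_mul, mul_comm]
  have hyy1 : yy L = 2 ^ e := by rw [yy, ← he]
  obtain ⟨Y, hY⟩ : ∃ Y, Y = yy L ^ 2 := ⟨_, rfl⟩
  obtain ⟨a, ha⟩ : ∃ a, a = 2 ^ L := ⟨_, rfl⟩
  have haL : L < a := by rw [ha]; exact Nat.lt_two_pow_self
  have hK : K₀ ≤ 2 ^ K₀ := Nat.lt_two_pow_self.le
  obtain ⟨N, hN⟩ : ∃ N, N = K₀ * Y + (2 ^ (L - 1) + L + 7) := ⟨_, rfl⟩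
  have h2 : 2 * (RR L + 1) + 1 ≤ 2 ^ (2 ^ (L - 1) + L + 7) := by
    unfold RR
    obtain ⟨b, hb⟩ : ∃ b, b = 2 ^ (2 ^ (L - 1)) := ⟨_, rfl⟩
    have hb1 : 1 ≤ b := by rw [hb]; exact Nat.one_le_two_pow
    have e1 : 2 ^ (2 ^ (L - 1) + L + 7) = 128 * (a * b) := by
      rw [ha, hb]
      ring
    rw [e1, ← hb]
    have e2 : 10 * b + 25 ≤ 35 * b := by omega
    have e3 : L * (10 * b + 25) ≤ a * (35 * b) := Nat.mul_le_mul haL.le e2
    have e4 : 1 ≤ a * b := Nat.mul_pos (by omega) hb1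
    have e5 : a * (35 * b) = 35 * (a * b) := by ring
    omega
  have h3 : 2 * (K₀ ^ (yy L ^ 2) * (RR L + 1)) + 1 ≤ 2 ^ N := by
    rw [← hY, hN, pow_add, pow_mul]
    have h4 : K₀ ^ Y ≤ (2 ^ K₀) ^ Y := Nat.pow_le_pow_left hK Y
    have h5 : 1 ≤ (2 ^ K₀) ^ Y := Nat.one_le_iff_ne_zero.2 (by positivity)
    calc 2 * (K₀ ^ Y * (RR L + 1)) + 1
        ≤ 2 * ((2 ^ K₀) ^ Y * (RR L + 1)) + (2 ^ K₀) ^ Y := by gcongr
      _ = (2 ^ K₀) ^ Y * (2 * (RR L + 1) + 1) := by ring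
      _ ≤ (2 ^ K₀) ^ Y * 2 ^ (2 ^ (L - 1) + L + 7) := by gcongr
  have hV : VV L + 2 ≤ 2 ^ (2 * del L + 4) := by
    unfold VV EE WW DD
    have g1 : 2 ^ L + 2 ≤ 2 ^ del L := by
      have g2 : L + 1 ≤ del L := by omega
      have g3 : 2 ^ (L + 1) ≤ 2 ^ del L := Nat.pow_le_pow_right (by norm_num) g2
      rw [pow_succ, ← ha] at g3
      rw [← ha]
      omega
    have g4 : 2 ^ del L * (2 ^ L + 2) ≤ 2 ^ del L * 2 ^ del L := Nat.mul_le_mul_left _ g1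
    have g5 : 2 ≤ 2 ^ del L * 2 ^ del L := by
      have : 2 ≤ 2 ^ del L := by omega
      nlinarith
    have g6 : 2 ^ (2 * del L + 4) = 16 * (2 ^ del L * 2 ^ del L) := by ring
    have g7 : (2 ^ del L) ^ 2 = 2 ^ del L * 2 ^ del L := by ring
    rw [g6, g7]
    omega
  obtain ⟨S, hS⟩ : ∃ S, S = (2 * del L + 4) * (L * yy L) := ⟨_, rfl⟩
  refine ⟨N, S, h3, ?_, ?_⟩
  · refine (Nat.pow_le_pow_left hV _).trans ?_
    rw [← pow_mul, hS]
  · -- the rest is small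
    have h6 : 2 * N + S < D' := by
      have hYe : Y = 2 ^ (2 * e) := by rw [hY, hyy]
      have g1 : 2 ^ (L - 1) + L + 7 ≤ 4 * Y := by
        have g2 : 2 ^ (L - 1) ≤ Y := by
          rw [hYe]
          exact Nat.pow_le_pow_right (by norm_num) (by omega)
        have g3 : L ≤ Y := by
          rw [hYe]
          have : 2 * e < 2 ^ (2 * e) := Nat.lt_two_pow_self
          omega
        omega
      have g4 : N ≤ (K₀ + 4) * Y := by
        rw [hN]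
        nlinarith
      have hlt : e < 2 ^ e := Nat.lt_two_pow_self
      have g5 : K₀ + 4 ≤ 2 ^ e := by omega
      have g6 : 2 * N ≤ 2 ^ (4 * e + 9) := by
        calc 2 * N ≤ 2 * ((K₀ + 4) * Y) := Nat.mul_le_mul_left _ g4
          _ ≤ 2 * (2 ^ e * 2 ^ (2 * e)) := by
              rw [hYe]
              exact Nat.mul_le_mul_left _ (Nat.mul_le_mul_right _ g5)
          _ = 2 ^ (3 * e + 1) := by rw [← pow_add]; ring
          _ ≤ 2 ^ (4 * e + 9) := Nat.pow_le_pow_right (by norm_num) (by omega)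
      have g7 : 2 * del L + 4 ≤ 2 ^ (2 * e + 9) := by
        have g8 : 2 ^ (2 * e + 9) = 512 * (2 ^ e * 2 ^ e) := by ring
        rw [g8]
        have g9 : e * e ≤ 2 ^ e * 2 ^ e := Nat.mul_le_mul hlt.le hlt.le
        have g10 : 1 ≤ e * e := Nat.mul_pos (by omega) (by omega)
        omega
      have g11 : S ≤ 2 ^ (4 * e + 9) := by
        rw [hS, hyy1]
        calc (2 * del L + 4) * (L * 2 ^ e) ≤ 2 ^ (2 * e + 9) * (2 ^ e * 2 ^ e) :=
              Nat.mul_le_mul g7 (Nat.mul_le_mul_right _ (by omega))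
          _ = 2 ^ (4 * e + 9) := by ring
      calc 2 * N + S ≤ 2 ^ (4 * e + 9) + 2 ^ (4 * e + 9) := Nat.add_le_add g6 g11
        _ = 2 ^ (4 * e + 10) := by ring
        _ < D' := by
            rw [hD']
            exact Nat.pow_lt_pow_right (by norm_num) (by omega)
    rw [hDD]
    omega

theorem r10 {T : ℕ} (hT : 4 ≤ T) (K₀ : ℕ) : ∀ᶠ l : ℕ in atTop, ∀ bI : ℕ,
    16 * T * bI ≤ WW (T * l) →
    (2 * bP T l + 1) ^ bI * (2 * NN l + 1) ^ (WW (T * l) / 16) *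
      ((2 * (K₀ ^ (yy (T * l) ^ 2) * (RR l + 1)) + 1) ^ 2) ^ DD (T * l) *
      (VV (T * l) + 2) ^ (l * yy (T * l) * DD (T * l)) <
        (2 ^ (T * l)) ^ (WW (T * l) / T) := by
  filter_upwards [eventually_ge_atTop (K₀ + 10 + T)] with l hl bI hbI
  obtain ⟨L, hL⟩ : ∃ L, L = T * l := ⟨_, rfl⟩
  have hlL : l ≤ L := by
    rw [hL]
    exact Nat.le_mul_of_pos_left _ (by omega)
  rw [← hL] at hbI ⊢
  obtain ⟨N, S, h1, h2, h3⟩ := small K₀ L (by omega)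
  have hRR : RR l ≤ RR L := by
    unfold RR
    refine Nat.mul_le_mul hlL ?_
    have : 2 ^ 2 ^ (l - 1) ≤ 2 ^ 2 ^ (L - 1) :=
      Nat.pow_le_pow_right (by norm_num) (Nat.pow_le_pow_right (by norm_num) (by omega))
    omega
  have h4 : 2 * (K₀ ^ (yy L ^ 2) * (RR l + 1)) + 1 ≤ 2 ^ N := by
    refine le_trans ?_ h1
    have : K₀ ^ (yy L ^ 2) * (RR l + 1) ≤ K₀ ^ (yy L ^ 2) * (RR L + 1) :=
      Nat.mul_le_mul_left _ (by omega)
    omega
  have h5 : (VV L + 2) ^ (l * yy L * DD L) ≤ 2 ^ (S * DD L) := by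
    rw [pow_mul (VV L + 2), pow_mul 2]
    refine Nat.pow_le_pow_left (le_trans ?_ h2) _
    exact Nat.pow_le_pow_right (by omega) (Nat.mul_le_mul_right _ hlL)
  obtain ⟨W, hW⟩ : ∃ W, W = WW L := ⟨_, rfl⟩
  obtain ⟨D, hD⟩ : ∃ D, D = DD L := ⟨_, rfl⟩
  have hWD : W = 4 * D ^ 2 := by rw [hW, hD, WW]
  have hbB : (2 * bP T l + 1) ^ bI ≤ 2 ^ ((L + 2 * l + 4) * bI) := by
    rw [pow_mul]
    refine Nat.pow_le_pow_left ?_ _
    rw [hL]
    exact bP_le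
  have hNB : (2 * NN l + 1) ^ (W / 16) ≤ 2 ^ ((2 * l + 2) * (W / 16)) := by
    rw [pow_mul]
    exact Nat.pow_le_pow_left NN_le _
  have hK1 : ((2 * (K₀ ^ (yy L ^ 2) * (RR l + 1)) + 1) ^ 2) ^ D ≤ 2 ^ (2 * N * D) := by
    calc ((2 * (K₀ ^ (yy L ^ 2) * (RR l + 1)) + 1) ^ 2) ^ D ≤ ((2 ^ N) ^ 2) ^ D :=
          Nat.pow_le_pow_left (Nat.pow_le_pow_left h4 _) _
      _ = 2 ^ (2 * N * D) := by
          rw [← pow_mul, ← pow_mul]
          congr 1
          ring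
  rw [← hW] at hbI ⊢
  rw [← hD] at h3 h5 ⊢
  have hmain : (L + 2 * l + 4) * bI + (2 * l + 2) * (W / 16) + 2 * N * D + S * D < L * (W / T) := by
    -- multiply by 16
    have g1 : 16 * (W / 16) ≤ W := Nat.mul_div_le W 16
    have g2 : W < T * (W / T) + T := by
      have := Nat.div_add_mod W T
      have := Nat.mod_lt W (by omega : 0 < T)
      omega
    have g3 : 16 * (L * bI) ≤ l * W := by
      rw [hL]
      calc 16 * (T * l * bI) = l * (16 * T * bI) := by ring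
        _ ≤ l * W := Nat.mul_le_mul_left _ hbI
    have g4 : 16 * ((2 * l + 4) * bI) * 4 ≤ (2 * l + 4) * W := by
      calc 16 * ((2 * l + 4) * bI) * 4 = (2 * l + 4) * (16 * 4 * bI) := by ring
        _ ≤ (2 * l + 4) * (16 * T * bI) := by
            refine Nat.mul_le_mul_left _ (Nat.mul_le_mul_right _ (by omega))
        _ ≤ (2 * l + 4) * W := Nat.mul_le_mul_left _ hbI
    have g5 : 16 * ((2 * l + 2) * (W / 16)) ≤ (2 * l + 2) * W := by
      calc 16 * ((2 * l + 2) * (W / 16)) = (2 * l + 2) * (16 * (W / 16)) := by ring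
        _ ≤ (2 * l + 2) * W := Nat.mul_le_mul_left _ g1
    have g6 : 4 * ((2 * N + S) * D) ≤ D * D := by
      calc 4 * ((2 * N + S) * D) = (4 * (2 * N + S)) * D := by ring
        _ ≤ D * D := Nat.mul_le_mul_right _ h3.le
    have g7 : l * W ≤ L * (W / T) + T * l := by
      calc l * W ≤ l * (T * (W / T) + T) := Nat.mul_le_mul_left _ g2.le
        _ = T * l * (W / T) + T * l := by ring
        _ = L * (W / T) + T * l := by rw [← hL]
    have g8 : T * l < D := by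
      rw [← hL, hD, DD]
      have e1 : L ≤ del L := by
        unfold del eta
        have h1 : L ≤ L ^ 2 := by nlinarith
        have h2 : 1 ≤ 64 * (1 + 8192 * L ^ 2) := by omega
        calc L ≤ 1 * (8192 * L ^ 2) := by omega
          _ ≤ 64 * (1 + 8192 * L ^ 2) * (8192 * L ^ 2) := Nat.mul_le_mul_right _ h2
      exact lt_of_le_of_lt e1 Nat.lt_two_pow_self
    have g9 : D ≤ D * D := Nat.le_mul_of_pos_left _ (by omega)
    have hW2 : W = 4 * (D * D) := by rw [hWD]; ring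
    -- collect
    have c1 : (L + 2 * l + 4) * bI = L * bI + (2 * l + 4) * bI := by ring
    have c2 : 2 * N * D + S * D = (2 * N + S) * D := by ring
    have c3 : (2 * l + 4) * W = 2 * (l * W) + 4 * W := by ring
    have c4 : (2 * l + 2) * W = 2 * (l * W) + 2 * W := by ring
    have c5 : 10 * W ≤ l * W := Nat.mul_le_mul_right _ (by omega)
    rw [c3] at g4
    rw [c4] at g5
    rw [c1]
    have hWpos : 0 < W := by
      rw [hW2]
      omega
    omega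
  calc (2 * bP T l + 1) ^ bI * (2 * NN l + 1) ^ (W / 16) *
      ((2 * (K₀ ^ (yy L ^ 2) * (RR l + 1)) + 1) ^ 2) ^ D * (VV L + 2) ^ (l * yy L * D)
      ≤ 2 ^ ((L + 2 * l + 4) * bI) * 2 ^ ((2 * l + 2) * (W / 16)) * 2 ^ (2 * N * D) *
        2 ^ (S * D) :=
        Nat.mul_le_mul (Nat.mul_le_mul (Nat.mul_le_mul hbB hNB) hK1) h5
    _ = 2 ^ ((L + 2 * l + 4) * bI + (2 * l + 2) * (W / 16) + 2 * N * D + S * D) := by
        rw [← pow_add, ← pow_add, ← pow_add]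
    _ < 2 ^ (L * (W / T)) := Nat.pow_lt_pow_right (by norm_num) hmain
    _ = (2 ^ L) ^ (W / T) := pow_mul _ _ _

end Pool.Agent.Helper51.BP
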